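import Pool.Agent.V11298.SR.Pol

/-!
# MP_028aa5_nt: local uniformity of the randomly perturbed Liouville function

The value `λ(n)` is replaced by `λ(n + t n)`, where `t n` is one of the `W` numbers `0, …, W - 1`; the
index `i : Fin X` stands for `n = i + 1`.
-/

set_option autoImplicit false

open Finset

namespace Pool.Agent.Results.MP_028aa5_nt.PerturbedPhases

/-- The Liouville function. -/
noncomputable def lio (n : ℕ) : ℂ := (-1) ^ ArithmeticFunction.cardFactors n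

/-- The sum of `λ(n + t n) g(n)` over `x < n ≤ x + H`, `n ≤ X`; the index `i : Fin X` stands for
`n = i + 1`. -/
noncomputable def window {X W : ℕ} (t : Fin X → Fin W) (x H : ℕ) (g : ℕ → ℂ) : ℂ :=
  ∑ i : Fin X, if x < (i : ℕ) + 1 ∧ (i : ℕ) + 1 ≤ x + H then
    lio ((i : ℕ) + 1 + (t i : ℕ)) * g ((i : ℕ) + 1) else 0

open Classical in
/-- The number of perturbations `t : {1, …, X} → {0, …, W - 1}` without the property `P` is at most
`exp (- c X)` times the number `W ^ X` of all perturbations. -/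
def Rare (X W : ℕ) (c : ℝ) (P : (Fin X → Fin W) → Prop) : Prop :=
  ((univ.filter fun t : Fin X → Fin W => ¬ P t).card : ℝ) ≤ Real.exp (-(c * X)) * (W : ℝ) ^ X

theorem rare_of {X W : ℕ} {c : ℝ} {Q : (Fin X → Fin W) → Prop}
    {inst : DecidablePred fun t : Fin X → Fin W => ¬ Q t}
    (h : ((@Finset.filter (Fin X → Fin W) (fun t => ¬ Q t) inst univ).card : ℝ) ≤
      Real.exp (-(c * X)) * (W : ℝ) ^ X) (P : (Fin X → Fin W) → Prop)
    (hPQ : ∀ t, Q t → P t) : Rare X W c P := by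
  classical
  unfold Rare
  refine le_trans (Nat.cast_le.2 (card_le_card fun t ht => ?_)) h
  exact mem_filter.2 ⟨mem_univ _, fun hq => (mem_filter.1 ht).2 (hPQ t hq)⟩

theorem lio_le (n : ℕ) : ‖lio n‖ ≤ 1 := by
  unfold lio
  simp

theorem lio_eq : (fun n => ((Pool.Agent.H376R2.MR.lam n : ℤ) : ℂ)) = lio := by
  funext n
  simp [lio, Pool.Agent.H376R2.MR.lam]

theorem dual_lio : Pool.Agent.V11298.SR.WinDual lio := by
  rw [← lio_eq]
  exact Pool.Agent.V11298.SR.dual_of_expo Pool.Agent.TH823.MRS.expo_lam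

theorem result :
    -- (1) polynomial phases of degree at most `k`, which may depend on the short interval
    (∀ (k : ℕ) (ε : ℝ), 0 < ε → ∃ c : ℝ, 0 < c ∧ ∃ W₀ H₀ : ℕ, ∀ W H : ℕ, W₀ ≤ W → H₀ ≤ H →
      ∃ X₀ : ℕ, ∀ X : ℕ, X₀ ≤ X → Rare X W c fun t =>
        ∀ P : ℕ → Polynomial ℝ, (∀ x, (P x).natDegree ≤ k) →
          ∑ x ∈ range X, ‖window t x H (fun n =>
            Complex.exp (2 * Real.pi * Complex.I * ((P x).eval (n : ℝ) : ℝ)))‖ ≤ ε * H * X) ∧
    -- (2) arbitrary classes of exponentially many test functions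
    (∀ ε : ℝ, 0 < ε → ∃ c : ℝ, 0 < c ∧ ∃ W₀ : ℕ, ∀ W H : ℕ, W₀ ≤ W → 1 ≤ H →
      ∃ X₀ : ℕ, ∀ X : ℕ, X₀ ≤ X → ∀ (κ : Type) [Fintype κ] (g : κ → ℕ → ℂ),
        5 * (Fintype.card κ : ℝ) ≤ Real.exp (c * H) → (∀ a n, ‖g a n‖ ≤ 1) →
        Rare X W c fun t => ∀ a : ℕ → κ,
          ∑ x ∈ range X, ‖window t x H (fun n => g (a x) (n - x))‖ ≤ ε * H * X) := by
  refine ⟨fun k ε hε => ?_, fun ε hε => ?_⟩
  · obtain ⟨c, hc, W₀, H₀, h⟩ := Pool.Agent.V11298.SR.phases lio_le dual_lio hε k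
    refine ⟨c, hc, W₀, H₀, fun W H hW hH => ?_⟩
    obtain ⟨X₀, hX₀⟩ := h W hW H hH
    refine ⟨X₀, fun X hX => ?_⟩
    have h1 := hX₀ X hX
    refine rare_of h1 _ ?_
    intro t ht P hP
    refine le_trans (le_of_eq (sum_congr rfl fun x _ => ?_)) (ht P hP)
    congr 1
    unfold window
    refine sum_congr rfl fun i _ => ?_
    by_cases hi : x ≤ (i : ℕ) ∧ (i : ℕ) < x + H
    · rw [if_pos hi, if_pos (by omega)]
      congr 1
      simp only [Pool.Agent.V11298.SR.eu]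
      rw [Nat.cast_add, Nat.cast_one, Complex.ofReal_mul, Complex.ofReal_mul, Complex.ofReal_ofNat]
      congr 1
      ring
    · rw [if_neg hi, if_neg (by omega)]
  · obtain ⟨c, hc, W₀, h⟩ := Pool.Agent.V11298.SR.classes lio_le dual_lio hε
    refine ⟨c, hc, W₀, fun W H hW hH => ?_⟩
    obtain ⟨X₀, hX₀⟩ := h W hW H hH
    refine ⟨X₀, fun X hX κ _ g hκ hg => ?_⟩
    have h1 := hX₀ X hX κ (fun a m => g a (m + 1)) hκ (fun a n => hg a _)
    refine rare_of h1 _ ?_
    intro t ht a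
    refine le_trans (le_of_eq (sum_congr rfl fun x _ => ?_)) (ht a)
    congr 1
    unfold window Pool.Agent.V11298.SR.wsum
    refine sum_congr rfl fun i _ => ?_
    by_cases hi : x ≤ (i : ℕ) ∧ (i : ℕ) < x + H
    · rw [if_pos hi, if_pos (by omega)]
      have : (i : ℕ) + 1 - x = (i : ℕ) - x + 1 := by omega
      simp only [this]
    · rw [if_neg hi, if_neg (by omega)]

end Pool.Agent.Results.MP_028aa5_nt.PerturbedPhases
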